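import Pool.Agent.H543R3.PC.Final

/-!
# The Borel complexity of: there is an optimal proof system
-/

namespace Pool.Agent.Results.MP_0532f7_lc.BorelComplexity

open Pool.Agent.H628R3.RO

/-- The set of oracles relative to which some (equivalently, every) `coNP`-complete set has an
optimal proof system is `Σ⁰₄`-complete. -/
theorem result : H556R2.Sigma04Complete {A : Oracle | ∃ L : Set (List Bool), IsCoNP A L ∧ CoNPHardRel A L ∧
    ∃ P, IsOptimal A L P} :=
  Pool.Agent.H543R3.PC.opt_complete

end Pool.Agent.Results.MP_0532f7_lc.BorelComplexity
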