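import Pool.Agent.H628R3.RO.F1

set_option autoImplicit false

/-!
# Relative to a random oracle, no `coNP`-hard set has an optimal proof system
-/

namespace Pool.Agent.Results.MP_0532f7_lc.RandomOracleNoOptimal

open Pool.Agent.H628R3.RO

/-- For almost every oracle `A`: for every proof system `P` (relative to `A`) for a set which is
hard for `coNP` relative to `A`, there is a proof system `Q` for this set such that, for
arbitrarily long `Q`-proofs `w`, all `P`-proofs of the same string are exponentially longer. -/
theorem result : ∀ᵐ A ∂randomOracle, ∀ L : Set (List Bool), CoNPHardRel A L →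
    ∀ P, IsProofSystem A L P → ∃ Q, IsProofSystem A L Q ∧
      ∃ k : ℕ, ∀ N : ℕ, ∃ w : List Bool, N ≤ w.length ∧ ∀ v, P v = Q w →
        2 ^ w.length ≤ v.length ^ k :=
  optimal_main

end Pool.Agent.Results.MP_0532f7_lc.RandomOracleNoOptimal
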